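import Mathlib

set_option autoImplicit false

open MeasureTheory ProbabilityTheory Filter Topology

namespace Pool.Agent.H43.CLT

variable {S : Type} [mS : MeasurableSpace S]

/-- The one-step Markov property in the form of the frozen statement. -/
def IsMarkovProc (Q : Kernel S S) {Ω : Type} [MeasurableSpace Ω] (μ : Measure Ω)
    (X : ℕ → Ω → S) : Prop :=
  ∀ n : ℕ, ∀ A : Set S, MeasurableSet A →
        condExp (⨆ i ≤ n, MeasurableSpace.comap (X i) mS) μ
          ((X (n+1) ⁻¹' A).indicator (fun _ => (1 : ℝ)))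
          =ᵐ[μ] fun ω => (Q (X n ω) A).toReal

section proc

variable {Q : Kernel S S} [IsMarkovKernel Q] {ν : Measure S} [IsProbabilityMeasure ν]
  {Ω : Type} [mΩ : MeasurableSpace Ω] {μ : Measure Ω} [IsProbabilityMeasure μ]
  {X : ℕ → Ω → S}

/-- initial segment of the path -/
def seg (X : ℕ → Ω → S) (n : ℕ) (ω : Ω) : Fin (n + 1) → S := fun i => X i ω

lemma measurable_seg (hX : ∀ i, Measurable (X i)) (n : ℕ) : Measurable (seg X n) :=
  measurable_pi_iff.2 fun i => hX i

omit mΩ in
lemma measurable_seg' (n : ℕ) :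
    Measurable[⨆ i ≤ n, MeasurableSpace.comap (X i) mS] (seg X n) := by
  apply @measurable_pi_lambda _ _ _ (⨆ i ≤ n, MeasurableSpace.comap (X i) mS)
  intro i
  have h1 : MeasurableSpace.comap (X i) mS ≤ ⨆ i ≤ n, MeasurableSpace.comap (X i) mS :=
    le_iSup₂ (f := fun (i : ℕ) (_ : i ≤ n) => MeasurableSpace.comap (X i) mS) (i : ℕ)
      (Nat.lt_succ_iff.1 i.2)
  exact (comap_measurable (X i)).mono h1 le_rfl

lemma filt_le (hX : ∀ i, Measurable (X i)) (n : ℕ) :
    (⨆ i ≤ n, MeasurableSpace.comap (X i) mS) ≤ mΩ :=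
  iSup₂_le fun i _ => (hX i).comap_le

/-- joint law of `(X_0..X_n)` and `X_{n+1}` -/
theorem law_step (hX : ∀ i, Measurable (X i)) (hM : IsMarkovProc Q μ X) (n : ℕ) :
    μ.map (fun ω => (seg X n ω, X (n + 1) ω)) =
      (μ.map (seg X n)) ⊗ₘ (Q.comap (fun y : Fin (n + 1) → S => y (Fin.last n))
        (measurable_pi_apply _)) := by
  have hseg := measurable_seg hX n
  have : IsProbabilityMeasure (μ.map (seg X n)) := Measure.isProbabilityMeasure_map hseg.aemeasurable
  have : IsProbabilityMeasure (μ.map (fun ω => (seg X n ω, X (n + 1) ω))) :=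
    Measure.isProbabilityMeasure_map (hseg.prodMk (hX _)).aemeasurable
  apply Measure.ext_prod
  intro B A hB hA
  rw [Measure.map_apply (hseg.prodMk (hX _)) (hB.prod hA), Measure.compProd_apply_prod hB hA]
  have hE : MeasurableSet[⨆ i ≤ n, MeasurableSpace.comap (X i) mS] (seg X n ⁻¹' B) :=
    measurable_seg' n hB
  have h1 := hM n A hA
  have hint : Integrable ((X (n+1) ⁻¹' A).indicator (fun _ => (1 : ℝ))) μ :=
    (integrable_const 1).indicator (hX _ hA)
  have h2 := setIntegral_condExp (filt_le hX n) hint hE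
  rw [setIntegral_congr_ae (g := fun ω => (Q (X n ω) A).toReal) (hseg hB)
    (h1.mono fun ω h _ => h)] at h2
  have h3 : ∫ ω in seg X n ⁻¹' B, (X (n+1) ⁻¹' A).indicator (fun _ => (1 : ℝ)) ω ∂μ =
      (μ ((fun ω => (seg X n ω, X (n + 1) ω)) ⁻¹' B ×ˢ A)).toReal := by
    rw [integral_indicator (hX _ hA), integral_const, smul_eq_mul, mul_one, Measure.real,
      Measure.restrict_apply_univ, Measure.restrict_apply (hX _ hA)]
    congr 2
    ext ω
    simp [and_comm]
  rw [h3] at h2
  rw [setLIntegral_map hB (Kernel.measurable_coe _ hA) hseg]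
  have h4 : ∫ ω in seg X n ⁻¹' B, (Q (X n ω) A).toReal ∂μ =
      (∫⁻ ω in seg X n ⁻¹' B, Q (X n ω) A ∂μ).toReal := by
    rw [integral_toReal]
    · exact ((Kernel.measurable_coe Q hA).comp (hX n)).aemeasurable
    · exact ae_of_all _ fun ω => measure_lt_top _ _
  rw [h4] at h2
  have hfin : (∫⁻ ω in seg X n ⁻¹' B, Q (X n ω) A ∂μ) ≠ ⊤ := by
    refine ne_of_lt (lt_of_le_of_lt (lintegral_mono (g := fun _ => 1) fun ω => prob_le_one) ?_)
    simp
  rw [ENNReal.toReal_eq_toReal_iff' hfin (measure_ne_top _ _)] at h2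
  rw [← h2]
  rfl

/-- expectation form of the one step Markov property -/
theorem integral_step {E : Type*} [NormedAddCommGroup E] [NormedSpace ℝ E]
    (hX : ∀ i, Measurable (X i)) (hM : IsMarkovProc Q μ X) (n : ℕ)
    (F : (Fin (n + 1) → S) × S → E) (hF : StronglyMeasurable F)
    (hint : Integrable (fun ω => F (seg X n ω, X (n + 1) ω)) μ) :
    ∫ ω, F (seg X n ω, X (n + 1) ω) ∂μ = ∫ ω, ∫ y, F (seg X n ω, y) ∂(Q (X n ω)) ∂μ := by
  have hseg := measurable_seg hX n
  have hm : AEMeasurable (fun ω => (seg X n ω, X (n + 1) ω)) μ :=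
    (hseg.prodMk (hX _)).aemeasurable
  have h1 : Integrable F (μ.map (fun ω => (seg X n ω, X (n + 1) ω))) := by
    rw [integrable_map_measure hF.aestronglyMeasurable hm]
    exact hint
  rw [← integral_map hm hF.aestronglyMeasurable]
  rw [law_step hX hM n] at h1 ⊢
  rw [Measure.integral_compProd h1]
  rw [integral_map hseg.aemeasurable]
  · rfl
  · exact (StronglyMeasurable.integral_kernel_prod_right' (κ := Q.comap
      (fun y : Fin (n + 1) → S => y (Fin.last n)) (measurable_pi_apply _)) hF).aestronglyMeasurable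

/-- `lintegral` form of the one step Markov property -/
theorem lintegral_step (hX : ∀ i, Measurable (X i)) (hM : IsMarkovProc Q μ X) (n : ℕ)
    (F : (Fin (n + 1) → S) × S → ENNReal) (hF : Measurable F) :
    ∫⁻ ω, F (seg X n ω, X (n + 1) ω) ∂μ = ∫⁻ ω, ∫⁻ y, F (seg X n ω, y) ∂(Q (X n ω)) ∂μ := by
  have hseg := measurable_seg hX n
  have hm : Measurable (fun ω => (seg X n ω, X (n + 1) ω)) := hseg.prodMk (hX _)
  rw [← lintegral_map hF hm, law_step hX hM n, Measure.lintegral_compProd hF,
    lintegral_map _ hseg]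
  · rfl
  · exact Measurable.lintegral_kernel_prod_right' (κ := Q.comap
      (fun y : Fin (n + 1) → S => y (Fin.last n)) (measurable_pi_apply _)) hF

end proc

end Pool.Agent.H43.CLT
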