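import Mathlib
import Pool.Agent.H43.CLT.Markov

set_option autoImplicit false

open MeasureTheory ProbabilityTheory Filter Topology

namespace Pool.Agent.H43.CLT

variable {S : Type} [mS : MeasurableSpace S]

section proc

variable {Q : Kernel S S} [IsMarkovKernel Q] {ν : Measure S}
  {Ω : Type} [mΩ : MeasurableSpace Ω] {μ : Measure Ω} [IsProbabilityMeasure μ]
  {X : ℕ → Ω → S}

/-- the last-coordinate kernel -/
noncomputable def lastK (Q : Kernel S S) (n : ℕ) : Kernel (Fin (n + 1) → S) S :=
  Q.comap (fun y : Fin (n + 1) → S => y (Fin.last n)) (measurable_pi_apply _)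

instance (n : ℕ) : IsMarkovKernel (lastK Q n) := by
  unfold lastK; infer_instance

lemma law_step_shift (hX : ∀ i, Measurable (X i)) (hM : IsMarkovProc Q μ X) (n : ℕ) :
    μ.map (fun ω => (seg (fun i => X (i + 1)) n ω, X (n + 2) ω)) =
      (μ.map (seg (fun i => X (i + 1)) n)) ⊗ₘ (lastK Q n) := by
  have hX' : ∀ i, Measurable (X (i + 1)) := fun i => hX _
  have hseg := measurable_seg hX (n + 1)
  have hseg' := measurable_seg hX' n
  have : IsProbabilityMeasure (μ.map (seg (fun i => X (i + 1)) n)) :=
    Measure.isProbabilityMeasure_map hseg'.aemeasurable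
  have : IsProbabilityMeasure (μ.map (seg X (n + 1))) :=
    Measure.isProbabilityMeasure_map hseg.aemeasurable
  have : IsProbabilityMeasure (μ.map (fun ω => (seg (fun i => X (i + 1)) n ω, X (n + 2) ω))) :=
    Measure.isProbabilityMeasure_map (hseg'.prodMk (hX _)).aemeasurable
  have h := law_step hX hM (n + 1)
  set tl : (Fin (n + 2) → S) → (Fin (n + 1) → S) := fun y i => y i.succ with htl
  have htlm : Measurable tl := measurable_pi_iff.2 fun i => measurable_pi_apply _
  apply Measure.ext_prod
  intro B A hB hA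
  have h2 : μ.map (fun ω => (seg (fun i => X (i + 1)) n ω, X (n + 2) ω)) (B ×ˢ A) =
      μ.map (fun ω => (seg X (n + 1) ω, X (n + 2) ω)) ((tl ⁻¹' B) ×ˢ A) := by
    rw [Measure.map_apply (hseg'.prodMk (hX _)) (hB.prod hA),
      Measure.map_apply (hseg.prodMk (hX _)) ((htlm hB).prod hA)]
    rfl
  rw [h2, h, Measure.compProd_apply_prod (htlm hB) hA, Measure.compProd_apply_prod hB hA]
  have h3 : μ.map (seg (fun i => X (i + 1)) n) = (μ.map (seg X (n + 1))).map tl := by
    rw [Measure.map_map htlm hseg]
    rfl
  rw [h3, setLIntegral_map hB (Kernel.measurable_coe _ hA) htlm]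
  rfl

omit [IsProbabilityMeasure μ] in
lemma law_seg_succ (hX : ∀ i, Measurable (X i)) (n : ℕ) :
    μ.map (seg X (n + 1)) = (μ.map (fun ω => (seg X n ω, X (n + 1) ω))).map
      (fun p : (Fin (n + 1) → S) × S => (Fin.snoc p.1 p.2 : Fin (n + 2) → S)) := by
  have hseg := measurable_seg hX n
  have hsn : Measurable (fun p : (Fin (n + 1) → S) × S => (Fin.snoc p.1 p.2 : Fin (n + 2) → S)) := by
    refine measurable_pi_iff.2 fun i => ?_
    refine Fin.lastCases ?_ (fun j => ?_) i
    · simpa using measurable_snd
    · simp only [Fin.snoc_castSucc]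
      exact (measurable_pi_apply j).comp measurable_fst
  rw [Measure.map_map hsn (hseg.prodMk (hX _))]
  congr 1
  funext ω
  funext i
  refine Fin.lastCases ?_ (fun j => ?_) i
  · simp [seg]
  · simp [seg]

theorem law_seg_shift (hX : ∀ i, Measurable (X i)) (hM : IsMarkovProc Q μ X)
    (hν : ν.bind Q = ν) (h0 : μ.map (X 0) = ν) (n : ℕ) :
    μ.map (seg (fun i => X (i + 1)) n) = μ.map (seg X n) := by
  have hX' : ∀ i, Measurable (X (i + 1)) := fun i => hX _
  induction n with
  | zero =>
    -- law of X_1 is ν
    have h1 : μ.map (X 1) = ν := by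
      have h := law_step hX hM 0
      have h2 : μ.map (X 1) = (μ.map (fun ω => (seg X 0 ω, X 1 ω))).map Prod.snd := by
        rw [Measure.map_map measurable_snd ((measurable_seg hX 0).prodMk (hX _))]
        rfl
      rw [h2, h]
      have : IsProbabilityMeasure (μ.map (seg X 0)) :=
        Measure.isProbabilityMeasure_map (measurable_seg hX 0).aemeasurable
      rw [← Measure.snd, Measure.snd_compProd]
      conv_rhs => rw [← hν, ← h0]
      ext A hA
      rw [Measure.bind_apply hA (Kernel.aemeasurable _), Measure.bind_apply hA (Kernel.aemeasurable _),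
        lintegral_map (Kernel.measurable_coe _ hA) (measurable_seg hX 0),
        lintegral_map (Kernel.measurable_coe _ hA) (hX 0)]
      rfl
    have e1 : seg (fun i => X (i + 1)) 0 = (fun x : S => fun _ : Fin 1 => x) ∘ (X 1) := by
      funext ω i
      simp [seg]
    have e2 : seg X 0 = (fun x : S => fun _ : Fin 1 => x) ∘ (X 0) := by
      funext ω i
      simp [seg]
    have hc : Measurable (fun x : S => fun _ : Fin 1 => x) := measurable_pi_iff.2 fun _ => measurable_id
    rw [e1, e2, ← Measure.map_map hc (hX 1), ← Measure.map_map hc (hX 0), h0, h1]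
  | succ n ih =>
    rw [law_seg_succ hX' n, law_seg_succ hX n]
    congr 1
    have h1 := law_step_shift hX hM n
    have h2 := law_step hX hM n
    rw [ih] at h1
    rw [h2]
    exact h1

/-- canonical path law -/
noncomputable def pathLaw (μ : Measure Ω) (X : ℕ → Ω → S) : Measure (ℕ → S) :=
  μ.map (fun ω n => X n ω)

/-- the shift on path space -/
def shiftN (ξ : ℕ → S) : ℕ → S := fun n => ξ (n + 1)

lemma measurable_shiftN : Measurable (shiftN (S := S)) :=
  measurable_pi_iff.2 fun i => measurable_pi_apply _

theorem pathLaw_shift (hX : ∀ i, Measurable (X i)) (hM : IsMarkovProc Q μ X)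
    (hν : ν.bind Q = ν) (h0 : μ.map (X 0) = ν) :
    (pathLaw μ X).map shiftN = pathLaw μ X := by
  have hpm : Measurable (fun ω n => X n ω) := measurable_pi_iff.2 hX
  have : IsProbabilityMeasure (pathLaw μ X) := Measure.isProbabilityMeasure_map hpm.aemeasurable
  have hP : ∀ I : Finset ℕ, IsFiniteMeasure ((pathLaw μ X).map (I.restrict (π := fun _ => S))) :=
    fun I => inferInstance
  apply IsProjectiveLimit.unique (α := fun _ : ℕ => S)
    (P := fun I => (pathLaw μ X).map (I.restrict (π := fun _ => S)))
  · intro I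
    obtain ⟨n, hn⟩ : ∃ n, ∀ i ∈ I, i ≤ n := ⟨I.sup id, fun _ hi => Finset.le_sup (f := id) hi⟩
    have hmeas : Measurable (fun y : Fin (n + 1) → S => fun i : I => y ⟨i.1, Nat.lt_succ_of_le (hn i.1 i.2)⟩) :=
      measurable_pi_iff.2 fun i => measurable_pi_apply _
    have hrm : Measurable (I.restrict (π := fun _ => S)) := Finset.measurable_restrict I
    show ((pathLaw μ X).map shiftN).map (I.restrict (π := fun _ => S)) =
      (pathLaw μ X).map (I.restrict (π := fun _ => S))
    rw [Measure.map_map hrm measurable_shiftN]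
    unfold pathLaw
    rw [Measure.map_map (hrm.comp measurable_shiftN) hpm, Measure.map_map hrm hpm]
    have e1 : (I.restrict (π := fun _ => S) ∘ shiftN) ∘ (fun ω n => X n ω) =
        (fun y : Fin (n + 1) → S => fun i : I => y ⟨i.1, Nat.lt_succ_of_le (hn i.1 i.2)⟩) ∘
          (seg (fun i => X (i + 1)) n) := by
      funext ω i
      rfl
    have e2 : I.restrict (π := fun _ => S) ∘ (fun ω n => X n ω) =
        (fun y : Fin (n + 1) → S => fun i : I => y ⟨i.1, Nat.lt_succ_of_le (hn i.1 i.2)⟩) ∘
          (seg X n) := by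
      funext ω i
      rfl
    rw [e1, e2, ← Measure.map_map hmeas (measurable_seg (fun i => hX (i + 1)) n),
      ← Measure.map_map hmeas (measurable_seg hX n), law_seg_shift hX hM hν h0 n]
  · intro I
    rfl

end proc

end Pool.Agent.H43.CLT
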