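import Pool.Agent.H45.CLT.Base
import Pool.Agent.H43.CLT.Shift

set_option autoImplicit false

open MeasureTheory ProbabilityTheory
open scoped ENNReal NNReal

namespace Pool.Agent.H43.CLT

open Pool.Agent.H45.CLT

/-- the path law of the process of the frozen statement is a `Chain` -/
theorem exists_chain' {S : Type} [mS : MeasurableSpace S] (Q : Kernel S S) [IsMarkovKernel Q]
    (ν : Measure S) [IsProbabilityMeasure ν] (hν : ν.bind Q = ν)
    {Ω : Type} [mΩ : MeasurableSpace Ω] (μ : Measure Ω) [IsProbabilityMeasure μ]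
    (X : ℕ → Ω → S) (hX : ∀ i, Measurable (X i)) (h0 : μ.map (X 0) = ν)
    (hmarkov : ∀ n : ℕ, ∀ A : Set S, MeasurableSet A →
        condExp (⨆ i ≤ n, MeasurableSpace.comap (X i) mS) μ
          ((X (n+1) ⁻¹' A).indicator (fun _ => (1 : ℝ)))
          =ᵐ[μ] fun ω => (Q (X n ω) A).toReal) :
    ∃ M : Chain S, M.Q = Q ∧ M.ν = ν ∧ M.P = μ.map (fun ω i => X i ω) := by
  have hpm : Measurable (fun ω n => X n ω) := measurable_pi_iff.2 hX
  refine ⟨{ Q := Q, ν := ν, P := μ.map (fun ω i => X i ω), hQ := inferInstance,
            hν := inferInstance, hP := Measure.isProbabilityMeasure_map hpm.aemeasurable,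
            hshift := ?_, hlaw := ?_, hmarkov := ?_ }, rfl, rfl, rfl⟩
  · have e : (sh 1 : (ℕ → S) → (ℕ → S)) = shiftN := by
      funext ξ n
      simp [sh, shiftN, add_comm]
    rw [e]
    exact ⟨measurable_shiftN, pathLaw_shift hX hmarkov hν h0⟩
  · rw [Measure.map_map (measurable_pi_apply 0) hpm]
    exact h0
  · intro i Φ h hΦ hh
    set ext : (Fin (i + 1) → S) → (ℕ → S) := fun y j => y ⟨min i j, by omega⟩ with hext
    have hextm : Measurable ext := measurable_pi_iff.2 fun j => measurable_pi_apply _
    have hfr : ∀ ω, fr i (fun n => X n ω) = ext (seg X i ω) := by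
      intro ω
      funext j
      rfl
    have hfrm : Measurable (fr i : (ℕ → S) → (ℕ → S)) :=
      measurable_pi_iff.2 fun j => measurable_pi_apply _
    rw [lintegral_map, lintegral_map]
    · have h1 := lintegral_step hX hmarkov i (fun p => Φ (ext p.1) * h p.2)
        (((hΦ.comp hextm).comp measurable_fst).mul (hh.comp measurable_snd))
      simp only [hfr]
      simp only at h1
      rw [h1]
      refine lintegral_congr fun ω => ?_
      rw [lintegral_const_mul _ hh]
    · exact (hΦ.comp hfrm).mul ((Measurable.lintegral_kernel hh).comp (measurable_pi_apply i))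
    · exact hpm
    · exact (hΦ.comp hfrm).mul (hh.comp (measurable_pi_apply _))
    · exact hpm

end Pool.Agent.H43.CLT
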