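import Mathlib

set_option autoImplicit false

open Filter Topology Finset

namespace Pool.Agent.H43.CLT

lemma one_sub_pow_le (t : ℝ) (h0 : 0 ≤ t) (h1 : t ≤ 1) (q : ℕ) :
    (1 - t) ^ q * (1 + q * t) ≤ 1 := by
  have hb : 1 + q * t ≤ (1 + t) ^ q := one_add_mul_le_pow (by linarith) q
  have h2 : 0 ≤ (1 - t) ^ q := pow_nonneg (by linarith) q
  calc (1 - t) ^ q * (1 + q * t) ≤ (1 - t) ^ q * (1 + t) ^ q := mul_le_mul_of_nonneg_left hb h2
    _ = (1 - t ^ 2) ^ q := by rw [← mul_pow]; ring_nf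
    _ ≤ 1 := pow_le_one₀ (by nlinarith) (by nlinarith [sq_nonneg t])

lemma inv_sqrt_le (q : ℕ) :
    1 / Real.sqrt (q + 1) ≤ 2 * (Real.sqrt ((q + 1 : ℕ)) - Real.sqrt q) := by
  push_cast
  have hs : 0 < Real.sqrt ((q : ℝ) + 1) := Real.sqrt_pos.2 (by positivity)
  have ht : 0 ≤ Real.sqrt (q : ℝ) := Real.sqrt_nonneg _
  have hs2 : Real.sqrt ((q : ℝ) + 1) ^ 2 = q + 1 := Real.sq_sqrt (by positivity)
  have ht2 : Real.sqrt (q : ℝ) ^ 2 = q := Real.sq_sqrt (by positivity)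
  have hle : Real.sqrt (q : ℝ) ≤ Real.sqrt ((q : ℝ) + 1) := Real.sqrt_le_sqrt (by linarith)
  rw [div_le_iff₀ hs]
  nlinarith

lemma sum_inv_sqrt_le (M : ℕ) :
    ∑ q ∈ range M, 1 / Real.sqrt ((q : ℝ) + 1) ≤ 2 * Real.sqrt M := by
  calc ∑ q ∈ range M, 1 / Real.sqrt ((q : ℝ) + 1)
      ≤ ∑ q ∈ range M, 2 * (Real.sqrt ((q + 1 : ℕ)) - Real.sqrt q) :=
        sum_le_sum fun q _ => inv_sqrt_le q
    _ = 2 * (∑ q ∈ range M, (Real.sqrt ((q + 1 : ℕ)) - Real.sqrt (q : ℕ))) := by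
        rw [mul_sum]
    _ = 2 * Real.sqrt M := by
        rw [Finset.sum_range_sub (fun q : ℕ => Real.sqrt (q : ℝ))]
        simp

/-- first Schur bound -/
lemma schur1 {r b : ℝ} (M : ℕ) (hM : b ^ 2 = M) (hb : 0 < b) (hr : r = 1 - 1 / b ^ 2)
    (hr0 : 0 ≤ r) (L : ℕ) :
    ∑ q ∈ range L, r ^ q / Real.sqrt ((q : ℝ) + 1) ≤ 3 * b := by
  have hr1 : r < 1 := by
    rw [hr]
    have : 0 < 1 / b ^ 2 := by positivity
    linarith
  have hgeo : ∑ q ∈ range L, r ^ q ≤ b ^ 2 := by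
    have h := (hasSum_geometric_of_lt_one hr0 hr1)
    have h2 := sum_le_hasSum (range L) (fun q _ => pow_nonneg hr0 q) h
    have h3 : (1 - r)⁻¹ = b ^ 2 := by rw [hr]; field_simp; ring
    rwa [h3] at h2
  have hpt : ∀ q ∈ range L, r ^ q / Real.sqrt ((q : ℝ) + 1) ≤
      (if q < M then 1 / Real.sqrt ((q : ℝ) + 1) else 0) + r ^ q / b := by
    intro q _
    have hs : 0 < Real.sqrt ((q : ℝ) + 1) := Real.sqrt_pos.2 (by positivity)
    split_ifs with hq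
    · have h1 : r ^ q ≤ 1 := pow_le_one₀ hr0 hr1.le
      have h2 : r ^ q / Real.sqrt ((q : ℝ) + 1) ≤ 1 / Real.sqrt ((q : ℝ) + 1) :=
        div_le_div_of_nonneg_right h1 hs.le
      have h3 : 0 ≤ r ^ q / b := by positivity
      linarith
    · push Not at hq
      rw [zero_add]
      apply div_le_div_of_nonneg_left (pow_nonneg hr0 q) hb
      apply Real.le_sqrt_of_sq_le
      rw [hM]
      have : (M : ℝ) ≤ q := by exact_mod_cast hq
      linarith
  have hif : ∑ q ∈ range L, (if q < M then 1 / Real.sqrt ((q : ℝ) + 1) else 0) ≤ 2 * b := by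
    have h1 : ∑ q ∈ range L, (if q < M then 1 / Real.sqrt ((q : ℝ) + 1) else 0) ≤
        ∑ q ∈ range M, 1 / Real.sqrt ((q : ℝ) + 1) := by
      rw [← sum_filter]
      apply sum_le_sum_of_subset_of_nonneg
      · intro q hq
        simp only [mem_filter, mem_range] at hq ⊢
        exact hq.2
      · intro q _ _
        positivity
    have h2 : Real.sqrt (M : ℝ) = b := by
      rw [← hM]; exact Real.sqrt_sq hb.le
    have := sum_inv_sqrt_le M
    rw [h2] at this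
    linarith
  calc ∑ q ∈ range L, r ^ q / Real.sqrt ((q : ℝ) + 1)
      ≤ ∑ q ∈ range L, ((if q < M then 1 / Real.sqrt ((q : ℝ) + 1) else 0) + r ^ q / b) :=
        sum_le_sum hpt
    _ = ∑ q ∈ range L, (if q < M then 1 / Real.sqrt ((q : ℝ) + 1) else 0)
        + (∑ q ∈ range L, r ^ q) / b := by rw [sum_add_distrib, sum_div]
    _ ≤ 2 * b + b ^ 2 / b := by
        apply add_le_add hif
        exact div_le_div_of_nonneg_right hgeo hb.le
    _ = 3 * b := by field_simp; ring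

/-- second Schur bound -/
lemma schur2 {a : ℝ} (ha1 : 1.4 ≤ a) (ha3 : a ≤ 1.5) (q M : ℕ) :
    Real.sqrt ((q : ℝ) + 1) * ∑ i ∈ range M, (1 / a ^ i) * (1 - 1 / (a ^ i) ^ 2) ^ q ≤ 14 := by
  set s := Real.sqrt ((q : ℝ) + 1) with hs
  have hs0 : 0 < s := Real.sqrt_pos.2 (by positivity)
  have hs2 : s ^ 2 = q + 1 := Real.sq_sqrt (by positivity)
  have hpt : ∀ i ∈ range M, s * ((1 / a ^ i) * (1 - 1 / (a ^ i) ^ 2) ^ q) ≤
      14 * (a ^ (i + 1) / (s + a ^ (i + 1)) - a ^ i / (s + a ^ i)) := by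
    intro i _
    set b := a ^ i with hb
    have hb1 : 1 ≤ b := one_le_pow₀ (by linarith)
    have hb0 : 0 < b := by linarith
    have hbs : b * a = a ^ (i + 1) := by rw [hb]; ring
    rw [← hbs]
    have ht0 : 0 ≤ 1 / b ^ 2 := by positivity
    have ht1 : 1 / b ^ 2 ≤ 1 := by
      rw [div_le_one (by positivity)]
      nlinarith
    have hp := one_sub_pow_le (1 / b ^ 2) ht0 ht1 q
    have hp2 : (1 - 1 / b ^ 2) ^ q ≤ b ^ 2 / (b ^ 2 + q) := by
      rw [le_div_iff₀ (by positivity)]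
      have : (1 - 1 / b ^ 2) ^ q * (b ^ 2 + q) = ((1 - 1 / b ^ 2) ^ q * (1 + q * (1 / b ^ 2))) * b ^ 2 := by
        field_simp
      rw [this]
      nlinarith [sq_nonneg b]
    have h1 : s * ((1 / b) * (1 - 1 / b ^ 2) ^ q) ≤ s * b / (b ^ 2 + q) := by
      have : s * ((1 / b) * (1 - 1 / b ^ 2) ^ q) ≤ s * ((1 / b) * (b ^ 2 / (b ^ 2 + q))) := by
        gcongr
      refine this.trans (le_of_eq ?_)
      field_simp
    refine h1.trans ?_
    have h2 : b * a / (s + b * a) - b / (s + b) = s * b * (a - 1) / ((s + b * a) * (s + b)) := by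
      field_simp
      ring
    rw [h2, mul_div_assoc']
    rw [div_le_div_iff₀ (by positivity) (by positivity)]
    have h3 : (s + b * a) * (s + b) ≤ 5.5 * (b ^ 2 + q) := by
      have e1 : (s + b * a) * (s + b) ≤ 2.75 * (s ^ 2 + b ^ 2) := by
        nlinarith [sq_nonneg (s - b), mul_pos hs0 hb0, sq_nonneg s, sq_nonneg b]
      have e2 : s ^ 2 + b ^ 2 ≤ 2 * (b ^ 2 + q) := by
        rw [hs2]
        have : (0 : ℝ) ≤ q := by positivity
        nlinarith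
      linarith
    have h4 : s * b * ((s + b * a) * (s + b)) ≤ s * b * (5.5 * (b ^ 2 + q)) :=
      mul_le_mul_of_nonneg_left h3 (by positivity)
    refine h4.trans ?_
    have h5 : 0 ≤ s * b * (b ^ 2 + q) := by positivity
    nlinarith
  rw [mul_sum]
  calc ∑ i ∈ range M, s * ((1 / a ^ i) * (1 - 1 / (a ^ i) ^ 2) ^ q)
      ≤ ∑ i ∈ range M, 14 * (a ^ (i + 1) / (s + a ^ (i + 1)) - a ^ i / (s + a ^ i)) :=
        sum_le_sum hpt
    _ = 14 * (a ^ M / (s + a ^ M) - a ^ 0 / (s + a ^ 0)) := by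
        rw [← mul_sum, Finset.sum_range_sub (fun i : ℕ => a ^ i / (s + a ^ i))]
    _ ≤ 14 := by
        have h1 : a ^ M / (s + a ^ M) ≤ 1 := by
          have : 0 < a ^ M := pow_pos (by linarith) M
          rw [div_le_one (by positivity)]
          linarith
        have h2 : 0 ≤ a ^ 0 / (s + a ^ 0) := by
          rw [pow_zero]; positivity
        linarith

/-- Hardy type inequality, finite version. -/
theorem hardy_fin (M L : ℕ) (x : ℕ → ℝ) :
    ∑ i ∈ range M, (1 / 2 : ℝ) ^ i * (∑ q ∈ range L, (1 - (1 / 2 : ℝ) ^ i) ^ q * |x q|) ^ 2 ≤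
      42 * ∑ q ∈ range L, x q ^ 2 := by
  set a : ℝ := Real.sqrt 2 with ha
  have ha2 : a ^ 2 = 2 := Real.sq_sqrt (by norm_num)
  have ha0 : 0 ≤ a := Real.sqrt_nonneg _
  have ha1 : 1.4 ≤ a := by
    apply Real.le_sqrt_of_sq_le; norm_num
  have ha3 : a ≤ 1.5 := by
    rw [ha, Real.sqrt_le_left (by norm_num)]; norm_num
  have hai : ∀ i : ℕ, (1 / 2 : ℝ) ^ i = 1 / (a ^ i) ^ 2 := by
    intro i
    rw [← pow_mul, mul_comm, pow_mul, ha2, one_div_pow]
  have hterm : ∀ i ∈ range M,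
      (1 / 2 : ℝ) ^ i * (∑ q ∈ range L, (1 - (1 / 2 : ℝ) ^ i) ^ q * |x q|) ^ 2 ≤
      3 * ∑ q ∈ range L, (1 / a ^ i) * ((1 - 1 / (a ^ i) ^ 2) ^ q *
        (Real.sqrt ((q : ℝ) + 1) * x q ^ 2)) := by
    intro i _
    rw [hai i]
    set b := a ^ i with hb
    have hb1 : 1 ≤ b := one_le_pow₀ (by linarith)
    have hb0 : 0 < b := by linarith
    set r : ℝ := 1 - 1 / b ^ 2 with hr
    have hr0 : 0 ≤ r := by
      rw [hr, sub_nonneg, div_le_one (by positivity)]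
      nlinarith
    have hM : b ^ 2 = ((2 ^ i : ℕ) : ℝ) := by
      rw [hb, ← pow_mul, mul_comm, pow_mul, ha2]; push_cast; ring
    have hs1 := schur1 (2 ^ i) hM hb0 hr hr0 L
    have hCS : (∑ q ∈ range L, r ^ q * |x q|) ^ 2 ≤
        (∑ q ∈ range L, r ^ q / Real.sqrt ((q : ℝ) + 1)) *
          ∑ q ∈ range L, r ^ q * (Real.sqrt ((q : ℝ) + 1) * x q ^ 2) := by
      apply sum_sq_le_sum_mul_sum_of_sq_le_mul
      · intro q _; positivity
      · intro q _; positivity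
      · intro q _
        have hs0 : 0 < Real.sqrt ((q : ℝ) + 1) := Real.sqrt_pos.2 (by positivity)
        rw [mul_pow, sq_abs]
        apply le_of_eq
        field_simp
    have hnn : 0 ≤ ∑ q ∈ range L, r ^ q * (Real.sqrt ((q : ℝ) + 1) * x q ^ 2) :=
      sum_nonneg fun q _ => by positivity
    calc 1 / b ^ 2 * (∑ q ∈ range L, r ^ q * |x q|) ^ 2
        ≤ 1 / b ^ 2 * ((3 * b) * ∑ q ∈ range L, r ^ q * (Real.sqrt ((q : ℝ) + 1) * x q ^ 2)) := by
          apply mul_le_mul_of_nonneg_left _ (by positivity)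
          exact hCS.trans (mul_le_mul_of_nonneg_right hs1 hnn)
      _ = 3 * ∑ q ∈ range L, (1 / b) * (r ^ q * (Real.sqrt ((q : ℝ) + 1) * x q ^ 2)) := by
          rw [← mul_sum]
          field_simp
  calc ∑ i ∈ range M, (1 / 2 : ℝ) ^ i * (∑ q ∈ range L, (1 - (1 / 2 : ℝ) ^ i) ^ q * |x q|) ^ 2
      ≤ ∑ i ∈ range M, 3 * ∑ q ∈ range L, (1 / a ^ i) * ((1 - 1 / (a ^ i) ^ 2) ^ q *
        (Real.sqrt ((q : ℝ) + 1) * x q ^ 2)) := sum_le_sum hterm
    _ = ∑ q ∈ range L, 3 * (x q ^ 2 * (Real.sqrt ((q : ℝ) + 1) *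
          ∑ i ∈ range M, (1 / a ^ i) * (1 - 1 / (a ^ i) ^ 2) ^ q)) := by
        rw [← mul_sum, sum_comm, mul_sum]
        refine sum_congr rfl fun q _ => ?_
        rw [mul_sum, mul_sum, mul_sum, mul_sum]
        refine sum_congr rfl fun i _ => ?_
        ring
    _ ≤ ∑ q ∈ range L, 3 * (x q ^ 2 * 14) := by
        refine sum_le_sum fun q _ => ?_
        have := schur2 ha1 ha3 q M
        gcongr
    _ = 42 * ∑ q ∈ range L, x q ^ 2 := by
        rw [mul_sum]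
        refine sum_congr rfl fun q _ => ?_
        ring

lemma summable_pow_mul_abs {x : ℕ → ℝ} (hx : Summable fun q => x q ^ 2) {r : ℝ} (h0 : 0 ≤ r)
    (h1 : r < 1) : Summable fun q => r ^ q * |x q| := by
  have hg := summable_geometric_of_lt_one (sq_nonneg r) (by nlinarith : r ^ 2 < 1)
  refine Summable.of_nonneg_of_le (fun q => by positivity) (fun q => ?_) (hg.add hx)
  have : (r ^ 2) ^ q = (r ^ q) ^ 2 := by rw [← pow_mul, ← pow_mul, mul_comm]
  rw [this, ← sq_abs (x q)]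
  nlinarith [sq_nonneg (r ^ q - |x q|), sq_nonneg (r ^ q), sq_nonneg (|x q|),
    mul_nonneg (pow_nonneg h0 q) (abs_nonneg (x q))]

/-- Hardy type inequality. -/
theorem hardy (M : ℕ) (x : ℕ → ℝ) (hx : Summable fun q => x q ^ 2) :
    ∑ i ∈ range M, (1 / 2 : ℝ) ^ i * (∑' q, (1 - (1 / 2 : ℝ) ^ i) ^ q * |x q|) ^ 2 ≤
      42 * ∑' q, x q ^ 2 := by
  have hlim : Tendsto (fun L => ∑ i ∈ range M, (1 / 2 : ℝ) ^ i *
      (∑ q ∈ range L, (1 - (1 / 2 : ℝ) ^ i) ^ q * |x q|) ^ 2) atTop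
      (𝓝 (∑ i ∈ range M, (1 / 2 : ℝ) ^ i * (∑' q, (1 - (1 / 2 : ℝ) ^ i) ^ q * |x q|) ^ 2)) := by
    refine tendsto_finsetSum _ fun i _ => ?_
    have h12 : (0 : ℝ) < (1 / 2 : ℝ) ^ i := by positivity
    have h12' : (1 / 2 : ℝ) ^ i ≤ 1 := pow_le_one₀ (by norm_num) (by norm_num)
    exact (((summable_pow_mul_abs hx (by linarith) (by linarith)).hasSum.tendsto_sum_nat).pow
      2).const_mul _
  have hlim2 : Tendsto (fun L => 42 * ∑ q ∈ range L, x q ^ 2) atTop (𝓝 (42 * ∑' q, x q ^ 2)) :=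
    hx.hasSum.tendsto_sum_nat.const_mul _
  exact le_of_tendsto_of_tendsto' hlim hlim2 fun L => hardy_fin M L x

theorem hardy_summable (x : ℕ → ℝ) (hx : Summable fun q => x q ^ 2) :
    Summable (fun i : ℕ => (1 / 2 : ℝ) ^ i * (∑' q, (1 - (1 / 2 : ℝ) ^ i) ^ q * |x q|) ^ 2) ∧
    ∑' i : ℕ, (1 / 2 : ℝ) ^ i * (∑' q, (1 - (1 / 2 : ℝ) ^ i) ^ q * |x q|) ^ 2 ≤
      42 * ∑' q, x q ^ 2 := by
  have hnn : ∀ i : ℕ, 0 ≤ (1 / 2 : ℝ) ^ i * (∑' q, (1 - (1 / 2 : ℝ) ^ i) ^ q * |x q|) ^ 2 :=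
    fun i => by positivity
  exact ⟨summable_of_sum_range_le hnn (fun M => hardy M x hx),
    Real.tsum_le_of_sum_range_le hnn (fun M => hardy M x hx)⟩

end Pool.Agent.H43.CLT
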