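import Mathlib

set_option autoImplicit false

open MeasureTheory ProbabilityTheory Filter Topology
open scoped ENNReal

namespace Pool.Agent.H43.CLT

variable {S : Type*} [mS : MeasurableSpace S]

/-- the averaging operator of the frozen statement -/
noncomputable def Qop (Q : Kernel S S) (h : S → ℝ) : S → ℝ := fun y => ∫ z, h z ∂(Q y)

section
set_option linter.unusedSectionVars false
variable {Q : Kernel S S} [IsMarkovKernel Q] {ν : Measure S} [IsProbabilityMeasure ν]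

lemma Qop_congr (hν : ν.bind Q = ν) {g g' : S → ℝ} (h : g =ᵐ[ν] g') :
    Qop Q g =ᵐ[ν] Qop Q g' := by
  have h1 : ∀ᵐ z ∂(Q ∘ₘ ν), g z = g' z := by
    rw [hν]; exact h
  filter_upwards [Measure.ae_ae_of_ae_comp h1] with x hx
  exact integral_congr_ae hx

lemma aestronglyMeasurable_Qop (hν : ν.bind Q = ν) {g : S → ℝ} (h : AEStronglyMeasurable g ν) :
    AEStronglyMeasurable (Qop Q g) ν := by
  obtain ⟨g', hg', hgg'⟩ := h
  have h2 : StronglyMeasurable (Qop Q g') := hg'.integral_kernel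
  exact h2.aestronglyMeasurable.congr (Qop_congr hν hgg').symm

lemma ae_integrable_Qop (hν : ν.bind Q = ν) {g : S → ℝ} (h : Integrable g ν) :
    ∀ᵐ x ∂ν, Integrable g (Q x) := by
  have h1 : Integrable g (Q ∘ₘ ν) := by rw [hν]; exact h
  exact Measure.ae_integrable_of_integrable_comp h1

lemma integrable_Qop (hν : ν.bind Q = ν) {g : S → ℝ} (h : Integrable g ν) :
    Integrable (Qop Q g) ν := by
  have h1 : Integrable g (Q ∘ₘ ν) := by rw [hν]; exact h
  refine (Measure.integrable_integral_norm_of_integrable_comp h1).mono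
    (aestronglyMeasurable_Qop hν h.1) (ae_of_all _ fun x => ?_)
  rw [Real.norm_of_nonneg (integral_nonneg fun _ => norm_nonneg _)]
  exact norm_integral_le_integral_norm _

lemma snd_law (hν : ν.bind Q = ν) : (ν ⊗ₘ Q).map Prod.snd = ν := by
  rw [← Measure.snd, Measure.snd_compProd, hν]

lemma fst_law : (ν ⊗ₘ Q).map Prod.fst = ν := by
  rw [← Measure.fst, Measure.fst_compProd]

lemma integrable_snd (hν : ν.bind Q = ν) {g : S → ℝ} (h : Integrable g ν) :
    Integrable (fun p : S × S => g p.2) (ν ⊗ₘ Q) := by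
  have : Integrable g ((ν ⊗ₘ Q).map Prod.snd) := by rw [snd_law hν]; exact h
  exact this.comp_measurable measurable_snd

lemma integrable_fst {g : S → ℝ} (h : Integrable g ν) :
    Integrable (fun p : S × S => g p.1) (ν ⊗ₘ Q) := by
  have : Integrable g ((ν ⊗ₘ Q).map Prod.fst) := by rw [fst_law]; exact h
  exact this.comp_measurable measurable_fst

lemma memLp_snd (hν : ν.bind Q = ν) {g : S → ℝ} {p : ℝ≥0∞} (h : MemLp g p ν) :
    MemLp (fun q : S × S => g q.2) p (ν ⊗ₘ Q) := by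
  have : MemLp g p ((ν ⊗ₘ Q).map Prod.snd) := by rw [snd_law hν]; exact h
  exact this.comp_of_map measurable_snd.aemeasurable

lemma memLp_fst {g : S → ℝ} {p : ℝ≥0∞} (h : MemLp g p ν) :
    MemLp (fun q : S × S => g q.1) p (ν ⊗ₘ Q) := by
  have : MemLp g p ((ν ⊗ₘ Q).map Prod.fst) := by rw [fst_law]; exact h
  exact this.comp_of_map measurable_fst.aemeasurable

/-- `∫ φ(x) g(y) ν(dx) Q(x,dy) = ∫ φ Qg dν`. -/
lemma integral_fst_mul_snd {φ g : S → ℝ}
    (h : Integrable (fun p : S × S => φ p.1 * g p.2) (ν ⊗ₘ Q)) :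
    ∫ p, φ p.1 * g p.2 ∂(ν ⊗ₘ Q) = ∫ x, φ x * Qop Q g x ∂ν := by
  rw [Measure.integral_compProd h]
  refine integral_congr_ae (ae_of_all _ fun x => ?_)
  simp only [Qop]
  rw [integral_const_mul]

lemma integral_snd (hν : ν.bind Q = ν) {g : S → ℝ} (h : AEStronglyMeasurable g ν) :
    ∫ p, g p.2 ∂(ν ⊗ₘ Q) = ∫ x, g x ∂ν := by
  have h2 : AEStronglyMeasurable g ((ν ⊗ₘ Q).map Prod.snd) := by rw [snd_law hν]; exact h
  rw [← integral_map measurable_snd.aemeasurable h2, snd_law hν]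

lemma integral_fst {g : S → ℝ} (h : AEStronglyMeasurable g ν) :
    ∫ p, g p.1 ∂(ν ⊗ₘ Q) = ∫ x, g x ∂ν := by
  have h2 : AEStronglyMeasurable g ((ν ⊗ₘ Q).map Prod.fst) := by rw [fst_law]; exact h
  rw [← integral_map measurable_fst.aemeasurable h2, fst_law]

lemma integral_Qop (hν : ν.bind Q = ν) {g : S → ℝ} (h : Integrable g ν) :
    ∫ x, Qop Q g x ∂ν = ∫ x, g x ∂ν := by
  have h1 : Integrable (fun p : S × S => (fun _ => (1 : ℝ)) p.1 * g p.2) (ν ⊗ₘ Q) := by
    simpa using integrable_snd hν h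
  have h2 := integral_fst_mul_snd (φ := fun _ => (1 : ℝ)) (g := g) h1
  simp only [one_mul] at h2
  rw [← h2, integral_snd hν h.1]

lemma sq_integral_le {μ : Measure S} [IsProbabilityMeasure μ] {g : S → ℝ} (h : Integrable g μ)
    (h2 : Integrable (fun x => g x ^ 2) μ) : (∫ x, g x ∂μ) ^ 2 ≤ ∫ x, g x ^ 2 ∂μ := by
  set c := ∫ x, g x ∂μ with hc
  have h3 : 0 ≤ ∫ x, (g x - c) ^ 2 ∂μ := integral_nonneg fun _ => sq_nonneg _
  have h4 : ∫ x, (g x - c) ^ 2 ∂μ = ∫ x, g x ^ 2 ∂μ - 2 * c * ∫ x, g x ∂μ + c ^ 2 := by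
    have e : (fun x => (g x - c) ^ 2) = fun x => (g x ^ 2 - (2 * c) * g x) + c ^ 2 := by
      funext x; ring
    have a1 : Integrable (fun x => g x ^ 2 - (2 * c) * g x) μ := h2.sub (h.const_mul _)
    rw [e, integral_add a1 (integrable_const _),
      integral_sub h2 (h.const_mul _), integral_const_mul, integral_const]
    simp
  rw [h4, ← hc] at h3
  nlinarith

lemma memLp_Qop (hν : ν.bind Q = ν) {g : S → ℝ} (h : MemLp g 2 ν) :
    MemLp (Qop Q g) 2 ν ∧ ∫ x, (Qop Q g x) ^ 2 ∂ν ≤ ∫ x, g x ^ 2 ∂ν := by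
  have h1 : Integrable g ν := h.integrable (by norm_num)
  have h2 : Integrable (fun x => g x ^ 2) ν := h.integrable_sq
  have h3 : ∀ᵐ x ∂ν, (Qop Q g x) ^ 2 ≤ Qop Q (fun y => g y ^ 2) x := by
    filter_upwards [ae_integrable_Qop hν h1, ae_integrable_Qop hν h2] with x hx1 hx2
    exact sq_integral_le hx1 hx2
  have h4 := integrable_Qop hν h2
  have h5 : Integrable (fun x => (Qop Q g x) ^ 2) ν := by
    refine h4.mono ((aestronglyMeasurable_Qop hν h.1).pow 2) ?_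
    filter_upwards [h3] with x hx
    rw [Real.norm_of_nonneg (sq_nonneg _)]
    exact hx.trans (le_abs_self _)
  refine ⟨(memLp_two_iff_integrable_sq (aestronglyMeasurable_Qop hν h.1)).2 h5, ?_⟩
  rw [← integral_Qop hν h2]
  exact integral_mono_ae h5 h4 h3

lemma toReal_eLpNorm_two {g : S → ℝ} (h : MemLp g 2 ν) :
    (eLpNorm g 2 ν).toReal ^ 2 = ∫ x, g x ^ 2 ∂ν := by
  have h1 : ‖h.toLp g‖ ^ 2 = ∫ x, g x ^ 2 ∂ν := by
    rw [← real_inner_self_eq_norm_sq, L2.inner_def]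
    refine integral_congr_ae ?_
    filter_upwards [h.coeFn_toLp] with x hx
    simp [hx, sq]
  rw [← h1, Lp.norm_toLp]

/-- the operator on `L²(ν)` -/
noncomputable def Qlin (hν : ν.bind Q = ν) : Lp ℝ 2 ν →ₗ[ℝ] Lp ℝ 2 ν where
  toFun g := (memLp_Qop hν (Lp.memLp g)).1.toLp _
  map_add' := by
    intro g h
    rw [← MemLp.toLp_add]
    rw [MemLp.toLp_eq_toLp_iff]
    have h1 : Integrable g ν := (Lp.memLp g).integrable (by norm_num)
    have h2 : Integrable h ν := (Lp.memLp h).integrable (by norm_num)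
    filter_upwards [Qop_congr hν (Lp.coeFn_add g h), ae_integrable_Qop hν h1,
      ae_integrable_Qop hν h2] with x hx hx1 hx2
    rw [hx]
    simp only [Pi.add_apply, Qop]
    exact integral_add hx1 hx2
  map_smul' := by
    intro c g
    rw [RingHom.id_apply, ← MemLp.toLp_const_smul]
    rw [MemLp.toLp_eq_toLp_iff]
    filter_upwards [Qop_congr hν (Lp.coeFn_smul c g)] with x hx
    rw [hx]
    simp only [Pi.smul_apply, Qop, smul_eq_mul]
    exact integral_const_mul _ _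

lemma Qlin_norm_le (hν : ν.bind Q = ν) (g : Lp ℝ 2 ν) : ‖Qlin hν g‖ ≤ 1 * ‖g‖ := by
  rw [one_mul]
  have h1 := memLp_Qop hν (Lp.memLp g)
  have h2 : ‖Qlin hν g‖ ^ 2 ≤ ‖g‖ ^ 2 := by
    have e1 : ‖Qlin hν g‖ = (eLpNorm (Qop Q g) 2 ν).toReal := Lp.norm_toLp _ h1.1
    have e2 : ‖g‖ = (eLpNorm g 2 ν).toReal := Lp.norm_def g
    rw [e1, e2, toReal_eLpNorm_two h1.1, toReal_eLpNorm_two (Lp.memLp g)]
    exact h1.2
  exact le_of_sq_le_sq h2 (norm_nonneg _)

/-- the contraction on `L²(ν)` -/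
noncomputable def Qclm (hν : ν.bind Q = ν) : Lp ℝ 2 ν →L[ℝ] Lp ℝ 2 ν :=
  (Qlin hν).mkContinuous 1 (Qlin_norm_le hν)

lemma norm_Qclm_le (hν : ν.bind Q = ν) : ‖Qclm (Q := Q) hν‖ ≤ 1 :=
  (Qlin hν).mkContinuous_norm_le zero_le_one _

lemma coeFn_Qclm (hν : ν.bind Q = ν) (g : Lp ℝ 2 ν) : Qclm hν g =ᵐ[ν] Qop Q g :=
  MemLp.coeFn_toLp (memLp_Qop hν (Lp.memLp g)).1

lemma coeFn_Qclm_iter (hν : ν.bind Q = ν) (g : Lp ℝ 2 ν) (j : ℕ) :
    (Qclm hν)^[j] g =ᵐ[ν] (Qop Q)^[j] g := by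
  induction j with
  | zero => rfl
  | succ j ih =>
    rw [Function.iterate_succ_apply', Function.iterate_succ_apply']
    exact (coeFn_Qclm hν _).trans (Qop_congr hν ih)

end

end Pool.Agent.H43.CLT
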