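import Mathlib

set_option autoImplicit false

open Filter Topology

namespace Pool.Agent.H43.CLT

/-- Geometric averaging of a sequence: `(geoT ρ a) i = (1-ρ) ∑_j ρ^j a_{i+j}`. -/
noncomputable def geoT (ρ : ℝ) (a : ℕ → ℂ) (i : ℕ) : ℂ :=
  (1 - (ρ : ℂ)) * ∑' j : ℕ, (ρ : ℂ) ^ j * a (i + j)

lemma hasSum_sq_geom {ρ : ℝ} (h0 : 0 ≤ ρ) (h1 : ρ < 1) (t : ℝ) :
    HasSum (fun j : ℕ => ρ ^ j * ((j : ℝ) + t) ^ 2)
      ((1 - ρ)⁻¹ * ((t + ρ / (1 - ρ)) ^ 2 + (ρ / (1 - ρ) + (ρ / (1 - ρ)) ^ 2))) := by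
  have hn : ‖ρ‖ < 1 := by rwa [Real.norm_of_nonneg h0]
  have hA := hasSum_geometric_of_lt_one h0 h1
  have hB := hasSum_coe_mul_geometric_of_norm_lt_one hn
  have hC := hasSum_choose_mul_geometric_of_norm_lt_one 2 hn
  have h1' : (1 - ρ) ≠ 0 := by linarith
  have := ((hC.mul_left 2).add (hB.mul_left (2 * t - 3))).add (hA.mul_left (t ^ 2 - 2))
  have e1 : (fun j : ℕ => ρ ^ j * ((j : ℝ) + t) ^ 2) = fun b : ℕ =>
      2 * ((((b + 2).choose 2 : ℕ) : ℝ) * ρ ^ b) + (2 * t - 3) * ((b : ℝ) * ρ ^ b)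
        + (t ^ 2 - 2) * ρ ^ b := by
    funext j
    have hch : (((j + 2).choose 2 : ℕ) : ℝ) = ((j : ℝ) + 2) * ((j : ℝ) + 1) / 2 := by
      rw [Nat.cast_choose_two]
      push_cast
      ring
    rw [hch]
    ring
  have e2 : (1 - ρ)⁻¹ * ((t + ρ / (1 - ρ)) ^ 2 + (ρ / (1 - ρ) + (ρ / (1 - ρ)) ^ 2)) =
      2 * (1 / (1 - ρ) ^ (2 + 1)) + (2 * t - 3) * (ρ / (1 - ρ) ^ 2)
        + (t ^ 2 - 2) * (1 - ρ)⁻¹ := by
    field_simp
    ring
  rw [e1, e2]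
  exact this

lemma norm_geoT_sub_le {ρ : ℝ} (h0 : 0 ≤ ρ) (h1 : ρ < 1) {a : ℕ → ℂ} {b : ℂ}
    {α β c : ℝ} (h : ∀ j : ℕ, ‖a j - b‖ ≤ α + β * ((j : ℝ) - c) ^ 2) (i : ℕ) :
    ‖geoT ρ a i - b‖ ≤
      (α + β * (ρ / (1 - ρ) + (ρ / (1 - ρ)) ^ 2)) + β * ((i : ℝ) - (c - ρ / (1 - ρ))) ^ 2 := by
  have hA := hasSum_geometric_of_lt_one h0 h1
  have hS := (hA.mul_left α).add ((hasSum_sq_geom h0 h1 ((i : ℝ) - c)).mul_left β)
  have hle : ∀ j : ℕ, ‖(ρ : ℂ) ^ j * (a (i + j) - b)‖ ≤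
      α * ρ ^ j + β * (ρ ^ j * ((j : ℝ) + ((i : ℝ) - c)) ^ 2) := by
    intro j
    rw [norm_mul, norm_pow, Complex.norm_real, Real.norm_of_nonneg h0]
    have := mul_le_mul_of_nonneg_left (h (i + j)) (pow_nonneg h0 j)
    refine this.trans (le_of_eq ?_)
    push_cast
    ring
  have hsum : Summable (fun j : ℕ => (ρ : ℂ) ^ j * (a (i + j) - b)) :=
    Summable.of_norm_bounded hS.summable hle
  have hgeo : HasSum (fun j : ℕ => (ρ : ℂ) ^ j * b) ((1 - (ρ : ℂ))⁻¹ * b) :=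
    (hasSum_geometric_of_norm_lt_one
      (by rwa [Complex.norm_real, Real.norm_of_nonneg h0])).mul_right b
  have hne : (1 - (ρ : ℂ)) ≠ 0 := by
    have : (1 - (ρ : ℂ)) = ((1 - ρ : ℝ) : ℂ) := by push_cast; ring
    rw [this, Complex.ofReal_ne_zero]
    linarith
  have key : geoT ρ a i - b = (1 - (ρ : ℂ)) * ∑' j : ℕ, (ρ : ℂ) ^ j * (a (i + j) - b) := by
    have h2 : (∑' j : ℕ, (ρ : ℂ) ^ j * a (i + j)) =
        (∑' j : ℕ, (ρ : ℂ) ^ j * (a (i + j) - b)) + (1 - (ρ : ℂ))⁻¹ * b := by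
      rw [← hgeo.tsum_eq, ← hsum.tsum_add hgeo.summable]
      congr 1
      funext j
      ring
    rw [geoT, h2]
    field_simp
    ring
  rw [key, norm_mul]
  have hn1 : ‖(1 - (ρ : ℂ))‖ = 1 - ρ := by
    have : (1 - (ρ : ℂ)) = ((1 - ρ : ℝ) : ℂ) := by push_cast; ring
    rw [this, Complex.norm_real, Real.norm_of_nonneg (by linarith)]
  rw [hn1]
  have hn2 : ‖∑' j : ℕ, (ρ : ℂ) ^ j * (a (i + j) - b)‖ ≤ _ :=
    tsum_of_norm_bounded hS hle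
  have h1' : (1 - ρ) ≠ 0 := by linarith
  refine (mul_le_mul_of_nonneg_left hn2 (by linarith)).trans (le_of_eq ?_)
  field_simp
  ring

lemma norm_geoT_iter_sub_le {ρ : ℝ} (h0 : 0 ≤ ρ) (h1 : ρ < 1) {a : ℕ → ℂ} {b : ℂ}
    {α β c : ℝ} (h : ∀ j : ℕ, ‖a j - b‖ ≤ α + β * ((j : ℝ) - c) ^ 2) (R : ℕ) (i : ℕ) :
    ‖(geoT ρ)^[R] a i - b‖ ≤
      (α + R * (β * (ρ / (1 - ρ) + (ρ / (1 - ρ)) ^ 2))) +
        β * ((i : ℝ) - (c - R * (ρ / (1 - ρ)))) ^ 2 := by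
  induction R generalizing i with
  | zero => simpa using h i
  | succ R ih =>
    rw [Function.iterate_succ_apply']
    have := norm_geoT_sub_le h0 h1 (c := c - R * (ρ / (1 - ρ))) ih i
    refine this.trans (le_of_eq ?_)
    push_cast
    ring

lemma sqrt_le_add {x η : ℝ} (hx : 0 ≤ x) (hη : 0 < η) :
    Real.sqrt x ≤ η + x ^ 2 / η ^ 3 := by
  have hy : 0 ≤ Real.sqrt x := Real.sqrt_nonneg x
  have hxy : x = Real.sqrt x ^ 2 := (Real.sq_sqrt hx).symm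
  set y := Real.sqrt x with hydef
  rw [hxy]
  by_cases hyη : y ≤ η
  · have : 0 ≤ (y ^ 2) ^ 2 / η ^ 3 := by positivity
    linarith
  · push Not at hyη
    have h3 : η ^ 3 ≤ y ^ 3 := pow_le_pow_left₀ hη.le hyη.le 3
    have : y ≤ (y ^ 2) ^ 2 / η ^ 3 := by
      rw [le_div_iff₀ (by positivity)]
      calc y * η ^ 3 ≤ y * y ^ 3 := mul_le_mul_of_nonneg_left h3 hy
        _ = (y ^ 2) ^ 2 := by ring
    linarith

lemma tendsto_ratio_pow (κ : ℝ) (hκ : 0 ≤ κ) :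
    Tendsto (fun R : ℕ => ((R : ℝ) / (R + κ)) ^ R) atTop (𝓝 (Real.exp (-κ))) := by
  have h := Real.tendsto_one_add_div_pow_exp κ
  have h2 := h.inv₀ (Real.exp_pos κ).ne'
  rw [Real.exp_neg]
  refine h2.congr' ?_
  filter_upwards [eventually_ge_atTop 1] with R hR
  have hR0 : (0 : ℝ) < R := by exact_mod_cast hR
  rw [← inv_pow]
  congr 1
  field_simp

/-- Tauberian step: convergence of the iterated resolvent averages (with `R` iterations at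
parameter `ρ = 1 - R/n`) to `(R/(R+κ))^R` for every `R ≥ 1`, together with `1/2`-Hölder regularity
in the scaled variable, implies convergence of `φ n n` to `exp (-κ)`. -/
theorem taub (φ : ℕ → ℕ → ℂ) (C κ : ℝ) (hκ : 0 ≤ κ)
    (hC : ∀ n : ℕ, 1 ≤ n → ∀ j k : ℕ,
      ‖φ n j - φ n k‖ ≤ C * Real.sqrt (|(j : ℝ) - k| / n))
    (hR : ∀ R : ℕ, 1 ≤ R → Tendsto (fun n : ℕ => (geoT (1 - (R : ℝ) / n))^[R] (φ n) 0) atTop
      (𝓝 ((((R : ℝ) / (R + κ)) ^ R : ℝ) : ℂ))) :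
    Tendsto (fun n => φ n n) atTop (𝓝 ((Real.exp (-κ) : ℝ) : ℂ)) := by
  have hC0 : 0 ≤ C := by
    have := hC 1 le_rfl 0 1
    have h2 : 0 ≤ C * Real.sqrt (|((0 : ℕ) : ℝ) - (1 : ℕ)| / (1 : ℕ)) := (norm_nonneg _).trans this
    simpa using h2
  rw [Metric.tendsto_atTop]
  intro ε hε
  -- choose η and R
  set η : ℝ := ε / (8 * (C + 1)) with hη
  have hηpos : 0 < η := by positivity
  have hCη : C * η ≤ ε / 8 := by
    rw [hη]
    rw [mul_div_assoc']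
    rw [div_le_div_iff₀ (by positivity) (by positivity)]
    nlinarith
  have hR1 : ∀ᶠ R : ℕ in atTop, dist (((R : ℝ) / (R + κ)) ^ R) (Real.exp (-κ)) < ε / 4 :=
    (tendsto_ratio_pow κ hκ).eventually (Metric.ball_mem_nhds _ (by positivity))
  have hR2 : ∀ᶠ R : ℕ in atTop, C / η ^ 3 * (1 / (R : ℝ)) < ε / 8 := by
    have : Tendsto (fun R : ℕ => C / η ^ 3 * (1 / (R : ℝ))) atTop (𝓝 (C / η ^ 3 * 0)) :=
      tendsto_one_div_atTop_nhds_zero_nat.const_mul _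
    rw [mul_zero] at this
    exact this.eventually (gt_mem_nhds (by positivity))
  obtain ⟨R, hRa, hRb, hR0⟩ := (hR1.and (hR2.and (eventually_ge_atTop 1))).exists
  have hRpos : (0 : ℝ) < R := by exact_mod_cast hR0
  have h3 : ∀ᶠ n : ℕ in atTop, dist ((geoT (1 - (R : ℝ) / n))^[R] (φ n) 0)
      ((((R : ℝ) / (R + κ)) ^ R : ℝ) : ℂ) < ε / 4 :=
    (hR R hR0).eventually (Metric.ball_mem_nhds _ (by positivity))
  have h4 : ∀ᶠ n : ℕ in atTop, C / η ^ 3 * ((R : ℝ) ^ 2 * (1 / (n : ℝ))) < ε / 8 := by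
    have : Tendsto (fun n : ℕ => C / η ^ 3 * ((R : ℝ) ^ 2 * (1 / (n : ℝ)))) atTop
        (𝓝 (C / η ^ 3 * ((R : ℝ) ^ 2 * 0))) :=
      (tendsto_one_div_atTop_nhds_zero_nat.const_mul _).const_mul _
    rw [mul_zero, mul_zero] at this
    exact this.eventually (gt_mem_nhds (by positivity))
  obtain ⟨n₀, hn₀⟩ := eventually_atTop.1 (h3.and (h4.and (eventually_ge_atTop (R + 1))))
  refine ⟨n₀, fun n hn => ?_⟩
  obtain ⟨h3n, h4n, hnR⟩ := hn₀ n hn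
  have hn1 : 1 ≤ n := by omega
  have hnpos : (0 : ℝ) < n := by exact_mod_cast hn1
  have hRn : (R : ℝ) < n := by exact_mod_cast (by omega : R < n)
  set ρ : ℝ := 1 - (R : ℝ) / n with hρ
  have hρ0 : 0 ≤ ρ := by
    rw [hρ, sub_nonneg, div_le_one hnpos]
    exact hRn.le
  have hρ1 : ρ < 1 := by
    rw [hρ]
    have : 0 < (R : ℝ) / n := by positivity
    linarith
  have hbd : ∀ j : ℕ, ‖φ n j - φ n n‖ ≤ C * η + (C / η ^ 3 / n ^ 2) * ((j : ℝ) - n) ^ 2 := by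
    intro j
    refine (hC n hn1 j n).trans ?_
    have := sqrt_le_add (x := |(j : ℝ) - n| / n) (by positivity) hηpos
    refine (mul_le_mul_of_nonneg_left this hC0).trans (le_of_eq ?_)
    rw [div_pow, sq_abs]
    field_simp
  have hmain := norm_geoT_iter_sub_le hρ0 hρ1 hbd R 0
  have ha : ρ / (1 - ρ) = n / R - 1 := by
    have h7 : 1 - ρ = R / n := by rw [hρ]; ring
    rw [h7, hρ]
    field_simp
  rw [ha] at hmain
  have hmain2 : ‖(geoT ρ)^[R] (φ n) 0 - φ n n‖ ≤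
      C * η + C / η ^ 3 * (1 / (R : ℝ)) + C / η ^ 3 * ((R : ℝ) ^ 2 * (1 / (n : ℝ))) := by
    refine hmain.trans ?_
    have e1 : (C * η + R * (C / η ^ 3 / n ^ 2 * ((n : ℝ) / R - 1 + ((n : ℝ) / R - 1) ^ 2))) +
        C / η ^ 3 / n ^ 2 * (((0 : ℕ) : ℝ) - (n - R * ((n : ℝ) / R - 1))) ^ 2 =
        C * η + C / η ^ 3 * (1 / (R : ℝ)) - C / η ^ 3 * (1 / n) +
          C / η ^ 3 * ((R : ℝ) ^ 2 * (1 / (n : ℝ))) * (1 / n) := by
      push_cast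
      field_simp
      ring
    rw [e1]
    have hK : 0 ≤ C / η ^ 3 := by positivity
    have h5 : 0 ≤ C / η ^ 3 * (1 / n) := by positivity
    have h6 : C / η ^ 3 * ((R : ℝ) ^ 2 * (1 / (n : ℝ))) * (1 / n) ≤
        C / η ^ 3 * ((R : ℝ) ^ 2 * (1 / (n : ℝ))) * 1 := by
      apply mul_le_mul_of_nonneg_left _ (by positivity)
      rw [div_le_one hnpos]
      exact_mod_cast hn1
    linarith
  have hd1 : dist (φ n n) ((geoT ρ)^[R] (φ n) 0) ≤ 3 * (ε / 8) := by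
    rw [dist_comm, dist_eq_norm]
    linarith
  have hd2 : dist ((((R : ℝ) / (R + κ)) ^ R : ℝ) : ℂ) ((Real.exp (-κ) : ℝ) : ℂ) < ε / 4 := by
    rw [Complex.dist_eq, ← Complex.ofReal_sub, Complex.norm_real]
    exact hRa
  calc dist (φ n n) ((Real.exp (-κ) : ℝ) : ℂ)
      ≤ dist (φ n n) ((geoT ρ)^[R] (φ n) 0)
        + dist ((geoT ρ)^[R] (φ n) 0) ((((R : ℝ) / (R + κ)) ^ R : ℝ) : ℂ)
        + dist ((((R : ℝ) / (R + κ)) ^ R : ℝ) : ℂ) ((Real.exp (-κ) : ℝ) : ℂ) :=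
        dist_triangle4 _ _ _ _
    _ < ε := by linarith

end Pool.Agent.H43.CLT
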